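import Pool.Agent.Q88.MD.Stm

/-! Project MD (helper88), job QAP (helper151). -/

set_option autoImplicit false

open MeasureTheory Set Filter Topology
open scoped ENNReal NNReal

namespace Pool.Agent.Q151.MD

open Pool.Agent.Q88.MD

theorem qap : S_qap := by
  intro τ E
  unfold Qap
  rw [ENNReal.iSup_eq_zero]
  constructor
  · intro h om hf hC h0
    have h1 := h om
    rw [ENNReal.iSup_eq_zero] at h1
    have h2 := h1 ⟨hf, hC⟩
    rw [ENNReal.div_eq_zero_iff] at h2
    rcases h2 with h2 | h2
    · exfalso
      apply h0
      obtain ⟨C, _, hCE, hC0⟩ := hC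
      rw [← Measure.measure_univ_eq_zero]
      have h3 : om E = 0 := by
        rw [pow_eq_zero_iff (by norm_num)] at h2
        exact h2
      have h4 : om univ ≤ om E + om Cᶜ := by
        refine (measure_mono ?_).trans (measure_union_le E Cᶜ)
        intro x _
        by_cases hx : x ∈ C
        · exact Or.inl (hCE hx)
        · exact Or.inr hx
      rw [h3, hC0, add_zero] at h4
      exact le_antisymm h4 (zero_le)
    · exact h2
  · intro h om
    rw [ENNReal.iSup_eq_zero]
    rintro ⟨hf, hC⟩
    by_cases h0 : om = 0
    · rw [h0]
      simp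
    · rw [h om hf hC h0]
      simp

end Pool.Agent.Q151.MD
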