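import Pool.Agent.Q88.MD.Stm

/-! Project MD (helper88), job TLT (helper151). -/

set_option autoImplicit false

open MeasureTheory Set Filter Topology
open scoped ENNReal NNReal

namespace Pool.Agent.Q151.MD

open Pool.Agent.Q88.MD

theorem tlt (h : S_inv) : S_tlt := by
  intro g lam q hg hl hq
  obtain ⟨ha, -, -⟩ := h g lam q hg hl hq
  have ha1 : za g lam q ≤ 1 := min_le_left _ _
  have ha2 : za g lam q ≤ g / (lam - 1) := (min_le_right _ _).trans (min_le_left _ _)
  have ha3 : za g lam q ≤ q - g := (min_le_right _ _).trans (min_le_right _ _)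
  have hb1 : 1 ≤ zb g lam q := le_max_left _ _
  have hb2 : g / (lam - 1) ≤ zb g lam q := (le_max_left _ _).trans (le_max_right _ _)
  have hb3 : q - g ≤ zb g lam q := (le_max_right _ _).trans (le_max_right _ _)
  have hb : 0 < zb g lam q := lt_of_lt_of_le one_pos hb1
  have hpz : ∀ z : ℝ, 0 < z → 0 < pz g z ∧ pz g z < 1 := by
    intro z hz
    unfold pz
    have : 0 < z + g := by linarith
    exact ⟨by positivity, by rw [div_lt_one this]; linarith⟩
  have hhalf : ∀ z : ℝ, 0 < z → pz g z = 2⁻¹ → z = g := by
    intro z hz h1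
    unfold pz at h1
    have : 0 < z + g := by linarith
    field_simp at h1
    linarith
  refine ⟨lt_min (Real.binEntropy_pos (hpz _ ha).1 (hpz _ ha).2) (Real.binEntropy_pos (hpz _ hb).1 (hpz _ hb).2), ?_⟩
  intro hex
  by_contra hcon
  push Not at hcon
  have h1 : pz g (za g lam q) = 2⁻¹ := by
    by_contra hne
    have h2 := Real.binEntropy_lt_log_two.2 hne
    exact absurd (hcon.trans (min_le_left _ _)) (not_le.2 h2)
  have h2 : pz g (zb g lam q) = 2⁻¹ := by
    by_contra hne
    have h2 := Real.binEntropy_lt_log_two.2 hne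
    exact absurd (hcon.trans (min_le_right _ _)) (not_le.2 h2)
  have h3 := hhalf _ ha h1
  have h4 := hhalf _ hb h2
  have hg1 : g = 1 := le_antisymm (by linarith) (by linarith)
  have h5 : g / (lam - 1) = 1 := le_antisymm (by linarith) (by linarith)
  have h6 : q - g = 1 := le_antisymm (by linarith) (by linarith)
  have h7 : lam = 2 := by
    have : lam - 1 ≠ 0 := by linarith
    field_simp at h5
    linarith
  apply hex
  refine ⟨by rw [h5, h6], ?_⟩
  rw [h7, hg1]
  norm_num

end Pool.Agent.Q151.MD
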