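import Pool.Agent.Q256.UG.Stm

set_option autoImplicit false
set_option linter.all false

/-! Project UG (helper256), common lemmas for the jobs RED, SQF (helper151): Gauss' lemma in two
variables, heights, leading forms. -/

namespace Pool.Agent.Q151.UG

open Finset MvPolynomial
open Pool.Agent.Q256.UP (PBox)
open Pool.Agent.Q256.UG

abbrev PZ := MvPolynomial (Fin 2) ℤ
abbrev PQ := MvPolynomial (Fin 2) ℚ
noncomputable abbrev ι : PZ →+* PQ := MvPolynomial.map (Int.castRingHom ℚ)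

theorem ι_inj : Function.Injective ι := MvPolynomial.map_injective _ Int.cast_injective

theorem deg_ι (A : PZ) : (ι A).totalDegree = A.totalDegree := by
  unfold totalDegree
  rw [show (ι A).support = A.support from
    MvPolynomial.support_map_of_injective _ Int.cast_injective]

/-- clearing denominators -/
theorem clear (A' : PQ) : ∃ (n : ℕ) (A : PZ), n ≠ 0 ∧ ι A = C (n : ℚ) * A' := by
  induction A' using MvPolynomial.induction_on with
  | C a =>
    refine ⟨a.den, C a.num, a.den_nz, ?_⟩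
    rw [← C_mul, map_C]
    congr 1
    rw [mul_comm]
    exact (Rat.mul_den_eq_num a).symm
  | add p q hp hq =>
    obtain ⟨n, A, hn, hA⟩ := hp
    obtain ⟨m, B, hm, hB⟩ := hq
    refine ⟨n * m, C (m : ℤ) * A + C (n : ℤ) * B, Nat.mul_ne_zero hn hm, ?_⟩
    rw [map_add, map_mul, map_mul, hA, hB, map_C, map_C]
    push_cast
    rw [C_mul]
    simp only [eq_intCast, Int.cast_natCast]
    ring
  | mul_X p i hp =>
    obtain ⟨n, A, hn, hA⟩ := hp
    refine ⟨n, A * X i, hn, ?_⟩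
    rw [map_mul, hA, map_X]
    ring

theorem deg_C_mul (n : ℤ) (hn : n ≠ 0) (A : PZ) : (C n * A).totalDegree = A.totalDegree := by
  by_cases hA : A = 0
  · rw [hA, mul_zero]
  · have hC : (C n : PZ) ≠ 0 := by
      rw [Ne, C_eq_zero]
      exact hn
    rw [totalDegree_mul_of_isDomain hC hA, totalDegree_C, zero_add]

theorem deg_C_mul' (n : ℚ) (hn : n ≠ 0) (A : PQ) : (C n * A).totalDegree = A.totalDegree := by
  by_cases hA : A = 0
  · rw [hA, mul_zero]
  · have hC : (C n : PQ) ≠ 0 := by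
      rw [Ne, C_eq_zero]
      exact hn
    rw [totalDegree_mul_of_isDomain hC hA, totalDegree_C, zero_add]

theorem primeC {p : ℕ} (hp : p.Prime) : Prime (C (p : ℤ) : PZ) :=
  (prime_C_iff (Fin 2)).2 (Nat.prime_iff_prime_int.1 hp)

/-- cancelling primes, two factors -/
theorem cancel2 : ∀ (N : ℕ), N ≠ 0 → ∀ F A B : PZ, C (N : ℤ) * F = A * B →
    ∃ A₁ B₁ : PZ, F = A₁ * B₁ ∧ A₁.totalDegree = A.totalDegree ∧
      B₁.totalDegree = B.totalDegree := by
  intro N
  induction N using induction_on_primes with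
  | zero => intro h; exact absurd rfl h
  | one =>
    intro _ F A B h
    refine ⟨A, B, ?_, rfl, rfl⟩
    rw [← h]
    simp
  | prime_mul p a hp ih =>
    intro hpa F A B h
    have ha : a ≠ 0 := fun h0 => hpa (by rw [h0, mul_zero])
    have hp0 : (p : ℤ) ≠ 0 := by exact_mod_cast hp.ne_zero
    have hC : (C (p : ℤ) : PZ) ≠ 0 := (primeC hp).ne_zero
    have h1 : C (p : ℤ) * (C (a : ℤ) * F) = A * B := by
      rw [← h]
      push_cast
      rw [C_mul]
      ring
    rcases (primeC hp).dvd_or_dvd (Dvd.intro _ h1) with ⟨A', rfl⟩ | ⟨B', rfl⟩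
    · have h2 : C (a : ℤ) * F = A' * B := by
        apply mul_left_cancel₀ hC
        rw [h1]
        ring
      obtain ⟨A₁, B₁, e1, e2, e3⟩ := ih ha F A' B h2
      exact ⟨A₁, B₁, e1, by rw [e2, deg_C_mul _ hp0], e3⟩
    · have h2 : C (a : ℤ) * F = A * B' := by
        apply mul_left_cancel₀ hC
        rw [h1]
        ring
      obtain ⟨A₁, B₁, e1, e2, e3⟩ := ih ha F A B' h2
      exact ⟨A₁, B₁, e1, e2, by rw [e3, deg_C_mul _ hp0]⟩

/-- cancelling primes, a square factor -/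
theorem cancel3 : ∀ (N : ℕ), N ≠ 0 → ∀ F q g : PZ, C (N : ℤ) * F = q * q * g →
    ∃ q₁ g₁ : PZ, F = q₁ * q₁ * g₁ ∧ q₁.totalDegree = q.totalDegree := by
  intro N
  induction N using induction_on_primes with
  | zero => intro h; exact absurd rfl h
  | one =>
    intro _ F q g h
    refine ⟨q, g, ?_, rfl⟩
    rw [← h]
    simp
  | prime_mul p a hp ih =>
    intro hpa F q g h
    have ha : a ≠ 0 := fun h0 => hpa (by rw [h0, mul_zero])
    have hp0 : (p : ℤ) ≠ 0 := by exact_mod_cast hp.ne_zero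
    have hC : (C (p : ℤ) : PZ) ≠ 0 := (primeC hp).ne_zero
    have h1 : C (p : ℤ) * (C (a : ℤ) * F) = q * q * g := by
      rw [← h]
      push_cast
      rw [C_mul]
      ring
    have hd : C (p : ℤ) ∣ q ∨ C (p : ℤ) ∣ g := by
      rcases (primeC hp).dvd_or_dvd (Dvd.intro _ h1) with h2 | h2
      · rcases (primeC hp).dvd_or_dvd h2 with h3 | h3
        · exact Or.inl h3
        · exact Or.inl h3
      · exact Or.inr h2
    rcases hd with ⟨q', rfl⟩ | ⟨g', rfl⟩
    · have h2 : C (a : ℤ) * F = q' * q' * (C (p : ℤ) * g) := by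
        apply mul_left_cancel₀ hC
        rw [h1]
        ring
      obtain ⟨q₁, g₁, e1, e2⟩ := ih ha F q' (C (p : ℤ) * g) h2
      exact ⟨q₁, g₁, e1, by rw [e2, deg_C_mul _ hp0]⟩
    · have h2 : C (a : ℤ) * F = q * q * g' := by
        apply mul_left_cancel₀ hC
        rw [h1]
        ring
      exact ih ha F q g' h2

/-- nonunits which are not `0` are not constant -/
theorem deg_pos {A : PQ} (h0 : A ≠ 0) (h : ¬ IsUnit A) : 1 ≤ A.totalDegree := by
  by_contra hcon
  apply h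
  have h1 : A.totalDegree = 0 := by omega
  rw [isUnit_iff_totalDegree_of_isReduced]
  refine ⟨?_, h1⟩
  rw [isUnit_iff_ne_zero]
  intro h2
  apply h0
  rw [totalDegree_eq_zero_iff_eq_C.1 h1, h2, C_0]

/-- Gauss' lemma. -/
theorem gauss2 {F : PZ} (hF : 1 ≤ F.totalDegree) (h : ¬ Irreducible (ι F)) :
    ∃ A B : PZ, F = A * B ∧ 1 ≤ A.totalDegree ∧ 1 ≤ B.totalDegree := by
  have hF0 : F ≠ 0 := by
    rintro rfl
    rw [totalDegree_zero] at hF
    omega
  have hF0' : ι F ≠ 0 := by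
    rw [Ne, ← map_zero ι]
    exact fun h => hF0 (ι_inj h)
  have hFu : ¬ IsUnit (ι F) := by
    rw [isUnit_iff_totalDegree_of_isReduced, deg_ι]
    omega
  rw [irreducible_iff] at h
  push Not at h
  obtain ⟨A', B', h1, h2, h3⟩ := h hFu
  have hA0 : A' ≠ 0 := by
    rintro rfl
    rw [zero_mul] at h1
    exact hF0' h1
  have hB0 : B' ≠ 0 := by
    rintro rfl
    rw [mul_zero] at h1
    exact hF0' h1
  obtain ⟨n, A, hn, hA⟩ := clear A'
  obtain ⟨m, B, hm, hB⟩ := clear B'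
  have hn' : (n : ℚ) ≠ 0 := by exact_mod_cast hn
  have hm' : (m : ℚ) ≠ 0 := by exact_mod_cast hm
  have h4 : C ((n * m : ℕ) : ℤ) * F = A * B := by
    apply ι_inj
    rw [map_mul, map_mul, hA, hB, h1, map_C]
    push_cast
    simp only [eq_intCast, Int.cast_mul, Int.cast_natCast]
    rw [C_mul]
    ring
  obtain ⟨A₁, B₁, e1, e2, e3⟩ := cancel2 _ (Nat.mul_ne_zero hn hm) F A B h4
  refine ⟨A₁, B₁, e1, ?_, ?_⟩
  · rw [e2, ← deg_ι, hA, deg_C_mul' _ hn']
    exact deg_pos hA0 h2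
  · rw [e3, ← deg_ι, hB, deg_C_mul' _ hm']
    exact deg_pos hB0 h3

/-- Gauss' lemma for squares. -/
theorem gauss3 {F : PZ} (hF : F ≠ 0) (h : ¬ Squarefree (ι F)) :
    ∃ q g : PZ, F = q * q * g ∧ 1 ≤ q.totalDegree := by
  have hF0' : ι F ≠ 0 := by
    rw [Ne, ← map_zero ι]
    exact fun h => hF (ι_inj h)
  unfold Squarefree at h
  push Not at h
  obtain ⟨q', ⟨g', h1⟩, h2⟩ := h
  have hq0 : q' ≠ 0 := by
    rintro rfl
    rw [zero_mul, zero_mul] at h1
    exact hF0' h1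
  obtain ⟨n, q, hn, hq⟩ := clear q'
  obtain ⟨m, g, hm, hg⟩ := clear g'
  have hn' : (n : ℚ) ≠ 0 := by exact_mod_cast hn
  have h4 : C ((n * n * m : ℕ) : ℤ) * F = q * q * g := by
    apply ι_inj
    rw [map_mul, map_mul, map_mul, hq, hg, h1, map_C]
    push_cast
    simp only [eq_intCast, Int.cast_mul, Int.cast_natCast]
    rw [C_mul, C_mul]
    ring
  obtain ⟨q₁, g₁, e1, e2⟩ := cancel3 _ (Nat.mul_ne_zero (Nat.mul_ne_zero hn hn) hm) F q g h4
  refine ⟨q₁, g₁, e1, ?_⟩
  rw [e2, ← deg_ι, hq, deg_C_mul' _ hn']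
  exact deg_pos hq0 h2

/-! heights -/

/-- The height. -/
noncomputable def ht (A : PZ) : ℕ := A.support.sup (fun α => (A.coeff α).natAbs)

theorem natAbs_le_ht (A : PZ) (α : Fin 2 →₀ ℕ) : (A.coeff α).natAbs ≤ ht A := by
  by_cases h : α ∈ A.support
  · exact Finset.le_sup (f := fun α => (A.coeff α).natAbs) h
  · rw [notMem_support_iff] at h
    rw [h]
    simp

theorem coeff_le_ht (A : PZ) (α : Fin 2 →₀ ℕ) : |A.coeff α| ≤ ht A := by
  have := natAbs_le_ht A α
  rw [Int.abs_eq_natAbs]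
  exact_mod_cast this

theorem exists_ht {A : PZ} (hA : A ≠ 0) : ∃ α, (A.coeff α).natAbs = ht A := by
  have h1 : A.support.Nonempty := by
    rw [Finset.nonempty_iff_ne_empty, Ne, MvPolynomial.support_eq_empty]
    exact hA
  obtain ⟨α, hα, h2⟩ := Finset.exists_mem_eq_sup A.support h1 (fun α => (A.coeff α).natAbs)
  exact ⟨α, h2.symm⟩

theorem one_le_ht {A : PZ} (hA : A ≠ 0) : 1 ≤ ht A := by
  obtain ⟨α, hα⟩ := MvPolynomial.ne_zero_iff.1 hA
  have := natAbs_le_ht A α
  have h1 : 1 ≤ (A.coeff α).natAbs := Nat.one_le_iff_ne_zero.2 (Int.natAbs_ne_zero.2 hα)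
  omega

theorem ht_le {A : PZ} {B : ℕ} (h : ∀ α, |A.coeff α| ≤ B) : ht A ≤ B := by
  unfold ht
  apply Finset.sup_le
  intro α _
  have := h α
  rw [Int.abs_eq_natAbs] at this
  exact_mod_cast this

theorem gel_nat (hG : S_GEL) (d : ℕ) : ∃ c : ℕ, 1 ≤ c ∧ ∀ A B : PZ, A ≠ 0 → B ≠ 0 →
    (A * B).totalDegree ≤ d → ∀ H : ℕ, ht (A * B) ≤ H → ht A * ht B ≤ c * H := by
  obtain ⟨C, hC, h⟩ := hG d
  refine ⟨⌈C⌉₊, Nat.one_le_ceil_iff.2 (by linarith), fun A B hA hB hd H hH => ?_⟩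
  obtain ⟨α, hα⟩ := exists_ht hA
  obtain ⟨β, hβ⟩ := exists_ht hB
  have h1 := h A B hA hB hd H (fun γ => by
    have h2 := coeff_le_ht (A * B) γ
    have h3 : |(A * B).coeff γ| ≤ (H : ℤ) := h2.trans (by exact_mod_cast hH)
    exact_mod_cast h3) α β
  have e1 : |((A.coeff α : ℤ) : ℝ)| = ht A := by
    rw [← hα, ← Int.cast_abs, Int.abs_eq_natAbs, Int.cast_natCast]
  have e2 : |((B.coeff β : ℤ) : ℝ)| = ht B := by
    rw [← hβ, ← Int.cast_abs, Int.abs_eq_natAbs, Int.cast_natCast]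
  rw [e1, e2] at h1
  have h3 : (ht A : ℝ) * ht B ≤ ⌈C⌉₊ * H := by
    refine h1.trans (mul_le_mul_of_nonneg_right (Nat.le_ceil C) (Nat.cast_nonneg _))
  exact_mod_cast h3

/-- counting pairs in a finite union -/
theorem card_union_le {α β : Type} (V : Set α) (I : Finset β) (S : β → Set α)
    (hS : ∀ i ∈ I, (S i).Finite) (hV : ∀ x ∈ V, ∃ i ∈ I, x ∈ S i) (M : ℕ)
    (hM : ∀ i ∈ I, (S i).ncard ≤ M) : Nat.card V ≤ #I * M := by
  classical
  have hfin : (⋃ i ∈ I, S i).Finite := I.finite_toSet.biUnion (fun i hi => hS i hi)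
  have h1 : V ⊆ ⋃ i ∈ I, S i := by
    intro x hx
    obtain ⟨i, hi, h⟩ := hV x hx
    simp only [Set.mem_iUnion]
    exact ⟨i, hi, h⟩
  have h2 : Nat.card V ≤ (⋃ i ∈ I, S i).ncard := by
    show V.ncard ≤ _
    exact Set.ncard_le_ncard h1 hfin
  refine h2.trans ?_
  clear h2 h1 hV hfin
  induction I using Finset.induction_on with
  | empty => simp
  | insert a s ha ih =>
    rw [Finset.set_biUnion_insert, Finset.card_insert_of_notMem ha]
    refine (Set.ncard_union_le _ _).trans ?_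
    have h1 := hM a (Finset.mem_insert_self a s)
    have h2 := ih (fun i hi => hS i (Finset.mem_insert_of_mem hi))
      (fun i hi => hM i (Finset.mem_insert_of_mem hi))
    calc _ ≤ M + #s * M := add_le_add h1 h2
      _ = _ := by ring

end Pool.Agent.Q151.UG
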