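import Pool.Agent.Q151.UG_Gauss

set_option autoImplicit false
set_option linter.all false

/-! Project UG (helper256), job RED (helper151): reducible polynomials. -/

namespace Pool.Agent.Q151.UG

open Finset MvPolynomial
open Pool.Agent.Q256.UP (PBox card_pbox finite_pbox)
open Pool.Agent.Q256.UG

theorem NC_succ (d : ℕ) (hd : 1 ≤ d) : NC d = NC (d - 1) + (d + 1) := by
  unfold NC
  obtain ⟨e, rfl⟩ : ∃ e, d = e + 1 := ⟨d - 1, by omega⟩
  rw [Nat.add_sub_cancel]
  have h : (e + 1 + 2).choose 2 = (e + 2).choose 1 + (e + 2).choose 2 :=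
    Nat.choose_succ_succ (e + 2) 1
  rw [h, Nat.choose_one_right]
  omega

theorem NC_mono {a b : ℕ} (h : a ≤ b) : NC a ≤ NC b := Nat.choose_le_choose 2 (by omega)

theorem pair_bound (p q m a b N : ℕ) (hp : p ≤ m) (hq : q ≤ m) (ha : 1 ≤ a) (hb : 1 ≤ b)
    (hN : a * b ≤ N) : (2 * a + 1) ^ p * (2 * b + 1) ^ q ≤ (9 * N) ^ m := by
  have h1 : (2 * a + 1) ^ p ≤ (3 * a) ^ m :=
    (Nat.pow_le_pow_left (by omega) p).trans (Nat.pow_le_pow_right (by omega) hp)
  have h2 : (2 * b + 1) ^ q ≤ (3 * b) ^ m :=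
    (Nat.pow_le_pow_left (by omega) q).trans (Nat.pow_le_pow_right (by omega) hq)
  calc _ ≤ (3 * a) ^ m * (3 * b) ^ m := Nat.mul_le_mul h1 h2
    _ = (9 * (a * b)) ^ m := by
      rw [← mul_pow]
      congr 1
      ring
    _ ≤ _ := Nat.pow_le_pow_left (by omega) m

theorem card_pbox' (d B : ℕ) : (PBox d B).ncard = (2 * B + 1) ^ NC d := card_pbox d B

/-- **RED** -/
theorem red : S_GEL → S_RED := by
  intro hG d hd
  obtain ⟨c, hc, hgel⟩ := gel_nat hG d
  obtain ⟨m, hm⟩ : ∃ m, m = NC (d - 1) := ⟨_, rfl⟩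
  have hNC : NC d = m + (d + 1) := by rw [hm]; exact NC_succ d (by omega)
  refine ⟨((d * c * (9 * c) ^ m : ℕ) : ℝ), ?_, fun H hH => ?_⟩
  · have h1 : 1 ≤ d * c * (9 * c) ^ m :=
      Nat.mul_pos (Nat.mul_pos (by omega) (by omega)) (Nat.pow_pos (by omega))
    exact_mod_cast h1
  obtain ⟨N, hN⟩ : ∃ N, N = c * H := ⟨_, rfl⟩
  have key : Nat.card {F | F ∈ PBox d H ∧ F.totalDegree = d ∧
      ¬ Irreducible (MvPolynomial.map (Int.castRingHom ℚ) F)} ≤
      #(Ico 1 d ×ˢ Icc 1 N) * (9 * N) ^ m := by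
    refine card_union_le _ (Ico 1 d ×ˢ Icc 1 N)
      (fun i => (fun p : PZ × PZ => p.1 * p.2) '' (PBox i.1 i.2 ×ˢ PBox (d - i.1) (N / i.2)))
      (fun i _ => ((finite_pbox _ _).prod (finite_pbox _ _)).image _) ?_ _ ?_
    · rintro F ⟨⟨hF1, hF2⟩, hF3, hF4⟩
      obtain ⟨A, B, rfl, hA, hB⟩ := gauss2 (by omega) hF4
      have hA0 : A ≠ 0 := by
        rintro rfl
        rw [totalDegree_zero] at hA
        omega
      have hB0 : B ≠ 0 := by
        rintro rfl
        rw [totalDegree_zero] at hB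
        omega
      have hdeg : A.totalDegree + B.totalDegree = d := by
        rw [← totalDegree_mul_of_isDomain hA0 hB0]
        exact hF3
      have h1 := hgel A B hA0 hB0 (le_of_eq hF3) H (ht_le hF2)
      rw [← hN] at h1
      have h2 := one_le_ht hA0
      have h3 := one_le_ht hB0
      have h4 : ht A ≤ N := (Nat.le_mul_of_pos_right _ (by omega)).trans h1
      refine ⟨(A.totalDegree, ht A), ?_, (A, B), ⟨⟨le_rfl, coeff_le_ht A⟩, ?_, fun α => ?_⟩, rfl⟩
      · rw [Finset.mem_product, Finset.mem_Ico, Finset.mem_Icc]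
        exact ⟨⟨hA, by omega⟩, h2, h4⟩
      · dsimp only
        omega
      · have h5 : ht B ≤ N / ht A := by
          rw [Nat.le_div_iff_mul_le (by omega), mul_comm]
          exact h1
        exact (coeff_le_ht B α).trans (by exact_mod_cast h5)
    · rintro ⟨r, a⟩ hi
      rw [Finset.mem_product, Finset.mem_Ico, Finset.mem_Icc] at hi
      dsimp only at hi ⊢
      obtain ⟨⟨hr1, hr2⟩, ha1, ha2⟩ := hi
      refine (Set.ncard_image_le ((finite_pbox _ _).prod (finite_pbox _ _))).trans ?_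
      rw [Set.ncard_prod, card_pbox', card_pbox']
      refine pair_bound _ _ _ _ _ _ ?_ ?_ ha1 ?_ (Nat.mul_div_le N a)
      · rw [hm]
        exact NC_mono (by omega)
      · rw [hm]
        exact NC_mono (by omega)
      · exact (Nat.one_le_div_iff (by omega)).2 ha2
  have key2 : Nat.card {F | F ∈ PBox d H ∧ F.totalDegree = d ∧
      ¬ Irreducible (MvPolynomial.map (Int.castRingHom ℚ) F)} ≤
      d * c * (9 * c) ^ m * H ^ (m + 1) := by
    refine key.trans ?_
    rw [Finset.card_product, Nat.card_Ico, Nat.card_Icc, Nat.add_sub_cancel]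
    calc (d - 1) * N * (9 * N) ^ m ≤ d * N * (9 * N) ^ m :=
          Nat.mul_le_mul_right _ (Nat.mul_le_mul_right _ (by omega))
      _ = d * c * (9 * c) ^ m * H ^ (m + 1) := by
        rw [hN, show 9 * (c * H) = 9 * c * H by ring, mul_pow]
        ring
  have hH1 : (1 : ℝ) ≤ H := by exact_mod_cast hH
  have h5 : ((H : ℝ)) ^ (m + 1) ≤ (H : ℝ) ^ ((NC d : ℝ) - 2) := by
    rw [← Real.rpow_natCast]
    apply Real.rpow_le_rpow_of_exponent_le hH1
    have h6 : ((d : ℕ) : ℝ) ≥ 2 := by exact_mod_cast hd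
    rw [hNC]
    push_cast
    linarith
  calc (Nat.card {F | F ∈ PBox d H ∧ F.totalDegree = d ∧
      ¬ Irreducible (MvPolynomial.map (Int.castRingHom ℚ) F)} : ℝ)
      ≤ ((d * c * (9 * c) ^ m * H ^ (m + 1) : ℕ) : ℝ) := by exact_mod_cast key2
    _ = ((d * c * (9 * c) ^ m : ℕ) : ℝ) * (H : ℝ) ^ (m + 1) := by push_cast; ring
    _ ≤ _ := mul_le_mul_of_nonneg_left h5 (Nat.cast_nonneg _)

end Pool.Agent.Q151.UG
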