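import Pool.Agent.Q151.UG_RED

set_option autoImplicit false
set_option linter.all false

/-! Project UG (helper256), job SQF (helper151): leading forms with a square factor. -/

namespace Pool.Agent.Q151.UG

open Finset MvPolynomial
open Pool.Agent.Q256.UP (PBox card_pbox finite_pbox)
open Pool.Agent.Q256.CI (Box card_box finite_box)
open Pool.Agent.Q256.UG

theorem coeff_zero_of_deg {A : PZ} {m : ℕ} (hA : A.totalDegree ≤ m) {α : Fin 2 →₀ ℕ}
    (h : m < α.degree) : A.coeff α = 0 := by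
  by_contra hcon
  have h1 := le_totalDegree (mem_support_iff.2 hcon)
  have h4 : (α.sum fun _ e => e) = α.degree := rfl
  omega

theorem hc_mul {A B : PZ} {m n : ℕ} (hA : A.totalDegree ≤ m) (hB : B.totalDegree ≤ n) :
    homogeneousComponent (m + n) (A * B) =
      homogeneousComponent m A * homogeneousComponent n B := by
  classical
  ext γ
  rw [coeff_homogeneousComponent, coeff_mul, coeff_mul]
  have key : ∀ x ∈ antidiagonal γ,
      coeff x.1 (homogeneousComponent m A) * coeff x.2 (homogeneousComponent n B) =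
        if γ.degree = m + n then coeff x.1 A * coeff x.2 B else 0 := by
    rintro ⟨α, β⟩ hx
    rw [HasAntidiagonal.mem_antidiagonal] at hx
    dsimp only at hx ⊢
    have hdeg : γ.degree = α.degree + β.degree := by rw [← hx, map_add]
    rw [coeff_homogeneousComponent, coeff_homogeneousComponent]
    by_cases h1 : α.degree = m
    · by_cases h2 : β.degree = n
      · rw [if_pos h1, if_pos h2, if_pos (by omega)]
      · rw [if_pos h1, if_neg h2, if_neg (by omega), mul_zero]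
    · rw [if_neg h1, zero_mul]
      split_ifs with h3
      · rcases Nat.lt_or_gt_of_ne h1 with h4 | h4
        · rw [coeff_zero_of_deg hB (show n < β.degree by omega), mul_zero]
        · rw [coeff_zero_of_deg hA h4, zero_mul]
      · rfl
  rw [sum_congr rfl key]
  split_ifs with h
  · rfl
  · rw [sum_const_zero]

/-- A form with a square factor over `ℚ` has one over `ℤ` which is a form. -/
theorem sq_form {d : ℕ} {Φ : PZ} (hΦ : Φ.IsHomogeneous d) (h0 : Φ ≠ 0) (h : ¬ Squarefree (ι Φ)) :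
    ∃ (r : ℕ) (q g : PZ), 1 ≤ r ∧ 2 * r ≤ d ∧ q.IsHomogeneous r ∧ g.IsHomogeneous (d - 2 * r) ∧
      Φ = q * q * g := by
  obtain ⟨q, g, e1, e2⟩ := gauss3 h0 h
  have hq0 : q ≠ 0 := by
    rintro rfl
    rw [totalDegree_zero] at e2
    omega
  have hg0 : g ≠ 0 := by
    rintro rfl
    rw [mul_zero] at e1
    exact h0 e1
  have hqq : (q * q).totalDegree = q.totalDegree + q.totalDegree :=
    totalDegree_mul_of_isDomain hq0 hq0
  have hdeg : d = q.totalDegree + q.totalDegree + g.totalDegree := by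
    rw [← hqq, ← totalDegree_mul_of_isDomain (mul_ne_zero hq0 hq0) hg0, ← e1]
    exact (hΦ.totalDegree h0).symm
  refine ⟨q.totalDegree, homogeneousComponent q.totalDegree q,
    homogeneousComponent g.totalDegree g, e2, by omega, homogeneousComponent_isHomogeneous _ _,
    ?_, ?_⟩
  · have h1 : d - 2 * q.totalDegree = g.totalDegree := by omega
    rw [h1]
    exact homogeneousComponent_isHomogeneous _ _
  · have h1 : homogeneousComponent d Φ = Φ := homogeneousComponent_eq_self hΦ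
    rw [← h1, e1, hdeg, hc_mul (le_of_eq hqq) le_rfl, hc_mul le_rfl le_rfl]

theorem deg_pair (d : ℕ) (i : Fin (d + 1)) :
    (Finsupp.single (0 : Fin 2) (d - (i : ℕ)) + Finsupp.single 1 (i : ℕ)).degree = d := by
  rw [map_add, Finsupp.degree_single, Finsupp.degree_single]
  have := i.2
  omega

theorem lc_hc (d : ℕ) (F : PZ) : lc d (homogeneousComponent d F) = lc d F := by
  funext i
  unfold lc
  rw [coeff_homogeneousComponent, if_pos (deg_pair d i)]

/-- the coefficients of a form are those of the vector `lc`. -/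
theorem coeff_le_of_lc {d H : ℕ} {Φ : PZ} (hΦ : Φ.IsHomogeneous d) (h : lc d Φ ∈ Vc d H)
    (γ : Fin 2 →₀ ℕ) : |Φ.coeff γ| ≤ H := by
  by_cases hγ : γ.degree = d
  · have h1 : γ 0 + γ 1 = d := by
      rw [Finsupp.degree_eq_sum, Fin.sum_univ_two] at hγ
      exact hγ
    have h2 := h ⟨γ 1, by omega⟩
    have h3 : (Finsupp.single (0 : Fin 2) (d - γ 1) + Finsupp.single 1 (γ 1)) = γ := by
      ext k
      fin_cases k
      · simp
        omega
      · simp
    unfold lc at h2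
    dsimp only at h2
    rw [h3] at h2
    exact h2
  · rw [hΦ.coeff_eq_zero hγ]
    simp

theorem card_box' (d B : ℕ) : (Box 1 d B).ncard = (2 * B + 1) ^ (d + 1) := by
  have h := card_box 1 d B
  rw [Nat.choose_one_right, Nat.add_comm 1 d] at h
  exact h

theorem pair_bound2 (p q m a b N : ℕ) (hp : p ≤ 2 * m) (hq : q ≤ m) (ha : 1 ≤ a) (hb : 1 ≤ b)
    (hN : a ^ 2 * b ≤ N) : (2 * a + 1) ^ p * (2 * b + 1) ^ q ≤ (27 * N) ^ m := by
  have h1 : (2 * a + 1) ^ p ≤ (3 * a) ^ (2 * m) :=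
    (Nat.pow_le_pow_left (by omega) p).trans (Nat.pow_le_pow_right (by omega) hp)
  have h2 : (2 * b + 1) ^ q ≤ (3 * b) ^ m :=
    (Nat.pow_le_pow_left (by omega) q).trans (Nat.pow_le_pow_right (by omega) hq)
  calc _ ≤ (3 * a) ^ (2 * m) * (3 * b) ^ m := Nat.mul_le_mul h1 h2
    _ = (27 * (a ^ 2 * b)) ^ m := by
      rw [pow_mul, ← mul_pow]
      congr 1
      ring
    _ ≤ _ := Nat.pow_le_pow_left (by omega) m

/-- the number of the forms with a square factor. -/
theorem card_forms (d c H : ℕ) (hd : 2 ≤ d) (hc : 1 ≤ c)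
    (hgel : ∀ A B : PZ, A ≠ 0 → B ≠ 0 →
      (A * B).totalDegree ≤ d → ∀ H : ℕ, ht (A * B) ≤ H → ht A * ht B ≤ c * H) :
    {Φ : PZ | Φ.IsHomogeneous d ∧ Φ ≠ 0 ∧ ¬ Squarefree (ι Φ) ∧ ht Φ ≤ H}.Finite ∧
    Nat.card {Φ : PZ | Φ.IsHomogeneous d ∧ Φ ≠ 0 ∧ ¬ Squarefree (ι Φ) ∧ ht Φ ≤ H} ≤
      d * Nat.sqrt (c ^ 2 * H) * (27 * (c ^ 2 * H)) ^ (d - 1) := by
  obtain ⟨N, hN⟩ : ∃ N, N = c ^ 2 * H := ⟨_, rfl⟩
  rw [← hN]
  constructor
  · refine (finite_box 1 d H).subset ?_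
    rintro Φ ⟨h1, h2, h3, h4⟩
    exact ⟨h1, fun α => (coeff_le_ht Φ α).trans (by exact_mod_cast h4)⟩
  have key : Nat.card {Φ : PZ | Φ.IsHomogeneous d ∧ Φ ≠ 0 ∧ ¬ Squarefree (ι Φ) ∧ ht Φ ≤ H} ≤
      #(Icc 1 (d / 2) ×ˢ Icc 1 (Nat.sqrt N)) * (27 * N) ^ (d - 1) := by
    refine card_union_le _ (Icc 1 (d / 2) ×ˢ Icc 1 (Nat.sqrt N))
      (fun i => (fun p : PZ × PZ => p.1 * p.1 * p.2) ''
        (Box 1 i.1 i.2 ×ˢ Box 1 (d - 2 * i.1) (N / i.2 ^ 2)))
      (fun i _ => ((finite_box _ _ _).prod (finite_box _ _ _)).image _) ?_ _ ?_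
    · rintro Φ ⟨h1, h2, h3, h4⟩
      obtain ⟨r, q, g, r1, r2, hq, hg, e⟩ := sq_form h1 h2 h3
      have hq0 : q ≠ 0 := by
        rintro rfl
        rw [zero_mul, zero_mul] at e
        exact h2 e
      have hg0 : g ≠ 0 := by
        rintro rfl
        rw [mul_zero] at e
        exact h2 e
      have e' : q * (q * g) = Φ := by rw [e]; ring
      have hΦd : Φ.totalDegree = d := h1.totalDegree h2
      have g1 := hgel q (q * g) hq0 (mul_ne_zero hq0 hg0) (by rw [e', hΦd]) H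
        (by rw [e']; exact h4)
      have g2 := hgel q g hq0 hg0 (by
        rw [← hΦd, ← e', totalDegree_mul_of_isDomain hq0 (mul_ne_zero hq0 hg0)]
        omega) (ht (q * g)) le_rfl
      have g3 : ht q ^ 2 * ht g ≤ N := by
        calc ht q ^ 2 * ht g = ht q * (ht q * ht g) := by ring
          _ ≤ ht q * (c * ht (q * g)) := Nat.mul_le_mul_left _ g2
          _ = c * (ht q * ht (q * g)) := by ring
          _ ≤ c * (c * H) := Nat.mul_le_mul_left _ g1
          _ = N := by rw [hN]; ring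
      have q1 := one_le_ht hq0
      have q2 := one_le_ht hg0
      have g4 : ht q ^ 2 ≤ N := (Nat.le_mul_of_pos_right _ (by omega)).trans g3
      refine ⟨(r, ht q), ?_, (q, g), ⟨⟨hq, coeff_le_ht q⟩, hg, fun α => ?_⟩, e.symm⟩
      · rw [Finset.mem_product, Finset.mem_Icc, Finset.mem_Icc]
        refine ⟨⟨r1, by dsimp only; omega⟩, q1, ?_⟩
        dsimp only
        rw [Nat.le_sqrt']
        exact g4
      · have h5 : ht g ≤ N / ht q ^ 2 := by
          rw [Nat.le_div_iff_mul_le (by positivity), mul_comm]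
          exact g3
        exact (coeff_le_ht g α).trans (by exact_mod_cast h5)
    · rintro ⟨r, a⟩ hi
      rw [Finset.mem_product, Finset.mem_Icc, Finset.mem_Icc] at hi
      dsimp only at hi ⊢
      obtain ⟨⟨hr1, hr2⟩, ha1, ha2⟩ := hi
      rw [Nat.le_sqrt'] at ha2
      refine (Set.ncard_image_le ((finite_box _ _ _).prod (finite_box _ _ _))).trans ?_
      rw [Set.ncard_prod, card_box', card_box']
      refine pair_bound2 _ _ _ _ _ _ (by omega) (by omega) ha1 ?_ (Nat.mul_div_le N (a ^ 2))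
      exact (Nat.one_le_div_iff (by positivity)).2 ha2
  refine key.trans ?_
  rw [Finset.card_product, Nat.card_Icc, Nat.card_Icc, Nat.add_sub_cancel, Nat.add_sub_cancel]
  exact Nat.mul_le_mul_right _ (Nat.mul_le_mul_right _ (by omega))

/-- **SQF** -/
theorem sqf : S_GEL → S_LDF → S_SQF := by
  intro hG hLDF d hd
  obtain ⟨c, hc, hgel⟩ := gel_nat hG d
  obtain ⟨K, hK⟩ : ∃ K, K = d * c * (27 * c ^ 2) ^ (d - 1) * 3 ^ (NC d - (d + 1)) := ⟨_, rfl⟩
  have hK1 : 1 ≤ K := by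
    rw [hK]
    exact Nat.mul_pos (Nat.mul_pos (Nat.mul_pos (by omega) (by omega))
      (Nat.pow_pos (by positivity))) (by positivity)
  refine ⟨(K : ℝ), by exact_mod_cast hK1, fun H hH => ?_⟩
  obtain ⟨W, hW⟩ : ∃ W : Set PZ, W = {Φ : PZ | Φ.IsHomogeneous d ∧ Φ ≠ 0 ∧ ¬ Squarefree (ι Φ)} :=
    ⟨_, rfl⟩
  obtain ⟨hfin, hcard⟩ := card_forms d c H hd hc hgel
  have h1 : Nat.card {F | F ∈ PBox d H ∧ F.totalDegree = d ∧
      ¬ Squarefree (MvPolynomial.map (Int.castRingHom ℚ) (homogeneousComponent d F))} ≤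
      Nat.card {F | F ∈ PBox d H ∧ lc d F ∈ lc d '' W} := by
    refine Set.ncard_le_ncard ?_ ((finite_pbox d H).subset fun F h => h.1)
    rintro F ⟨hF1, hF2, hF3⟩
    refine ⟨hF1, homogeneousComponent d F, ?_, lc_hc d F⟩
    rw [hW]
    refine ⟨homogeneousComponent_isHomogeneous _ _, ?_, hF3⟩
    intro h0
    have hF0 : F ≠ 0 := by
      rintro rfl
      rw [totalDegree_zero] at hF2
      omega
    have hne : F.support.Nonempty := by
      rw [Finset.nonempty_iff_ne_empty, Ne, MvPolynomial.support_eq_empty]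
      exact hF0
    obtain ⟨α, hα, hα2⟩ := Finset.exists_mem_eq_sup F.support hne (fun s => s.sum fun _ e => e)
    have h4 : (α.sum fun _ e => e) = α.degree := rfl
    have h5 : α.degree = d := by
      rw [← hF2, ← h4]
      exact hα2.symm
    have h6 := congrArg (coeff α) h0
    rw [coeff_homogeneousComponent, if_pos h5, coeff_zero] at h6
    exact (mem_support_iff.1 hα) h6
  have h2 := hLDF.2.2 d H (lc d '' W) (by omega)
  have h3 : Nat.card {v | v ∈ Vc d H ∧ v ∈ lc d '' W} ≤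
      Nat.card {Φ : PZ | Φ.IsHomogeneous d ∧ Φ ≠ 0 ∧ ¬ Squarefree (ι Φ) ∧ ht Φ ≤ H} := by
    have h4 : {v | v ∈ Vc d H ∧ v ∈ lc d '' W} ⊆
        lc d '' {Φ : PZ | Φ.IsHomogeneous d ∧ Φ ≠ 0 ∧ ¬ Squarefree (ι Φ) ∧ ht Φ ≤ H} := by
      rintro v ⟨hv, Φ, hΦ, rfl⟩
      rw [hW] at hΦ
      exact ⟨Φ, ⟨hΦ.1, hΦ.2.1, hΦ.2.2, ht_le (coeff_le_of_lc hΦ.1 hv)⟩, rfl⟩
    exact (Set.ncard_le_ncard h4 (hfin.image _)).trans (Set.ncard_image_le hfin)
  have h4 := h1.trans (h2.trans (Nat.mul_le_mul_right _ (h3.trans hcard)))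
  have hNC1 : d + 1 ≤ NC d := by
    rw [NC_succ d (by omega)]
    omega
  have hH1 : (1 : ℝ) ≤ H := by exact_mod_cast hH
  have hH0 : (0 : ℝ) < H := by linarith
  have hs : (Nat.sqrt (c ^ 2 * H) : ℝ) ≤ c * (H : ℝ) ^ ((1 : ℝ) / 2) := by
    refine Real.nat_sqrt_le_real_sqrt.trans ?_
    push_cast
    rw [Real.sqrt_mul (by positivity), Real.sqrt_sq (Nat.cast_nonneg c), Real.sqrt_eq_rpow]
  have h5 : (Nat.card {F | F ∈ PBox d H ∧ F.totalDegree = d ∧
      ¬ Squarefree (MvPolynomial.map (Int.castRingHom ℚ) (homogeneousComponent d F))} : ℝ) ≤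
      d * Nat.sqrt (c ^ 2 * H) * (27 * (c ^ 2 * H)) ^ (d - 1) *
        (2 * H + 1) ^ (NC d - (d + 1)) := by
    exact_mod_cast h4
  have h6 : ((2 : ℝ) * H + 1) ^ (NC d - (d + 1)) ≤ (3 * (H : ℝ)) ^ (NC d - (d + 1)) :=
    pow_le_pow_left₀ (by positivity) (by linarith) _
  have e1 : (H : ℝ) ^ ((1 : ℝ) / 2) * (H : ℝ) ^ (d - 1) * (H : ℝ) ^ (NC d - (d + 1)) =
      (H : ℝ) ^ ((NC d : ℝ) - 3 / 2) := by
    rw [← Real.rpow_natCast (H : ℝ) (d - 1), ← Real.rpow_natCast (H : ℝ) (NC d - (d + 1)),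
      ← Real.rpow_add hH0, ← Real.rpow_add hH0]
    congr 1
    rw [Nat.cast_sub (by omega), Nat.cast_sub hNC1]
    push_cast
    ring
  calc (Nat.card {F | F ∈ PBox d H ∧ F.totalDegree = d ∧
      ¬ Squarefree (MvPolynomial.map (Int.castRingHom ℚ) (homogeneousComponent d F))} : ℝ) ≤
      d * Nat.sqrt (c ^ 2 * H) * (27 * (c ^ 2 * H)) ^ (d - 1) *
        (2 * H + 1) ^ (NC d - (d + 1)) := h5
    _ ≤ d * (c * (H : ℝ) ^ ((1 : ℝ) / 2)) * (27 * (c ^ 2 * H)) ^ (d - 1) *
        (3 * (H : ℝ)) ^ (NC d - (d + 1)) := by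
      apply mul_le_mul _ h6 (by positivity) (by positivity)
      apply mul_le_mul_of_nonneg_right _ (by positivity)
      exact mul_le_mul_of_nonneg_left hs (by positivity)
    _ = K * ((H : ℝ) ^ ((1 : ℝ) / 2) * (H : ℝ) ^ (d - 1) * (H : ℝ) ^ (NC d - (d + 1))) := by
      rw [hK]
      push_cast
      rw [show (27 : ℝ) * (c ^ 2 * H) = 27 * c ^ 2 * H by ring, mul_pow (27 * (c : ℝ) ^ 2) (H : ℝ),
        mul_pow (3 : ℝ) (H : ℝ)]
      ring
    _ = _ := by rw [e1]

end Pool.Agent.Q151.UG
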